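import Pool.Agent.Helper56_MG.Stmts
import Pool.Agent.Helper56_MG.Base3

/-!
# Squad MG, modules INT and TRA: interpretations exist, transfer to smaller stages
-/

open Set

namespace Pool.Agent.MG.H4

universe u

variable (I : Type) [Idx I]

/-- The conditions which decide `f` up to `j`. -/
def Df (f : Pt I → Set ℕ) (j : ℕ) : Set (Cond I) :=
  {e | ∀ y ∈ e.body, ∀ y' ∈ e.body, ∀ n, n < j → (n ∈ f y ↔ n ∈ f y')}

theorem Df_iff {f : Pt I → Set ℕ} {j : ℕ} {e : Cond I} (he : e ∈ Df I f j) {n : ℕ} (hn : n < j)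
    {y : Pt I} (hy : y ∈ e.body) : n ∈ f y ↔ ∀ y' ∈ e.body, n ∈ f y' :=
  ⟨fun h y' hy' => (he y hy y' hy' n hn).1 h, fun h => h y hy⟩

omit [Idx I] in
/-- The truncated name takes countably many values. -/
theorem measC_trunc {f : Pt I → Set ℕ} (hf : Measurable f) (j : ℕ) :
    MeasC (fun y => {n | n < j ∧ n ∈ f y}) := by
  constructor
  · intro x
    have h1 : {w | (fun y => {n | n < j ∧ n ∈ f y}) w = x} =
        ⋂ n : ℕ, {w | (n < j ∧ n ∈ f w) ↔ n ∈ x} := by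
      ext w
      simp only [mem_ofPred_eq, mem_iInter, Set.ext_iff]
    rw [h1]
    refine MeasurableSet.iInter fun n => ?_
    have h2 : MeasurableSet {w | n ∈ f w} := (measurable_nat_iff.1 hf) n
    by_cases hn : n < j
    · by_cases hx : n ∈ x
      · simpa [hn, hx] using h2
      · have h3 : {w | (n < j ∧ n ∈ f w) ↔ n ∈ x} = {w | n ∈ f w}ᶜ := by
          ext w
          simp [hn, hx]
        rw [h3]
        exact h2.compl
    · by_cases hx : n ∈ x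
      · simp [hn, hx]
      · simp [hn, hx]
  · refine Set.Countable.mono (s₂ := (fun s : Finset ℕ => (s : Set ℕ)) '' Set.univ) ?_
      (Set.countable_univ.image _)
    rintro _ ⟨y, rfl⟩
    have hfin : ({n | n < j ∧ n ∈ f y} : Set ℕ).Finite :=
      (Set.finite_lt_nat j).subset fun n hn => hn.1
    exact ⟨hfin.toFinset, trivial, hfin.coe_toFinset⟩

/-- Density of the conditions which decide a name. -/
theorem dense_Df (hProp : PropStmt I) (hCst2 : Cst2Stmt I) (β : I) {f : Pt I → Set ℕ}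
    (hf : Measurable f) (hd : Dep β f) (j : ℕ) (p : Cond I) (hp : VB β p) :
    ∃ q, q ≤ p ∧ VB β q ∧ q ∈ Df I f j := by
  obtain ⟨q, hqp, hq, x, hx⟩ := (hCst2 β (hProp β).1 (hProp β).2.1).1 p hp _ _
    (measC_trunc I hf j) (fun y y' h => by
      show {n | n < j ∧ n ∈ f y} = {n | n < j ∧ n ∈ f y'}
      rw [hd y y' h])
  refine ⟨q, hqp, hq, fun y hy y' hy' n hn => ?_⟩
  have h1 : ({n | n < j ∧ n ∈ f y} : Set ℕ) = {n | n < j ∧ n ∈ f y'} := by
    rw [hx y hy, hx y' hy']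
  have h2 : n ∈ ({n | n < j ∧ n ∈ f y} : Set ℕ) ↔ n ∈ ({n | n < j ∧ n ∈ f y'} : Set ℕ) := by
    rw [h1]
  simpa [hn] using h2

/-- Countable good sets meeting countably many dense sets, with a generic condition at a smaller
stage and the decreasing sequences of conditions. -/
theorem core (hProp : PropStmt I) (hHull : HullStmt.{0} I) (hGd : GdStmt I) (hHg : HgStmt I)
    (hClaim : ClaimStmt I) (β α : I) (hαβ : α < β) (d : Cond I) (hd : VB β d)
    (D : ℕ → Set (Cond I)) (hD : ∀ j p, VB β p → ∃ q, q ≤ p ∧ VB β q ∧ q ∈ D j) :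
    ∃ (r : Cond I) (c : ℕ → Pt I → Cond I), VB α r ∧ (∀ j, MeasC (c j) ∧ Dep α (c j)) ∧
      ∀ y ∈ r.body, y ∈ (d.restr α).body ∧ ∀ j, VB β (c j y) ∧ c j y ∈ D j ∧
        y ∈ ((c j y).restr α).body ∧ c j y ≤ d ∧ c (j + 1) y ≤ c j y := by
  -- the hull
  obtain ⟨N, Z, Y, B, hN, -, hdN, -, -, -, hrule⟩ := hHull β (fun ρ _ => ⟨(hProp ρ).1, (hProp ρ).2.1⟩)
    Empty {Sum.inl d} (countable_singleton _)
    (fun e he => by
      rw [mem_singleton_iff] at he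
      rw [Sum.inl.inj he]
      exact hd)
    Set.univ Set.infinite_univ
    (fun j l O _ => ∀ e, l = [Sum.inl e] → ∃ e', Sum.inl e' ∈ O ∧ e' ≤ e ∧ e' ∈ D j)
    (by
      intro j l hl C' _ hC'
      by_cases h : ∃ e, l = [Sum.inl e]
      · obtain ⟨e, rfl⟩ := h
        obtain ⟨q, hqe, hq, hqD⟩ := hD j e (hl e (by simp))
        refine ⟨{Sum.inl q}, countable_singleton _, fun e' he' => ?_, C', Subset.rfl, hC', ?_⟩
        · rw [mem_singleton_iff] at he'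
          rw [Sum.inl.inj he']
          exact hq
        · intro e' he'
          have h1 : e = e' := by simpa using he'
          exact ⟨q, rfl, h1 ▸ hqe, hqD⟩
      · refine ⟨∅, countable_empty, fun e he => absurd he (notMem_empty _), C', Subset.rfl, hC',
          fun e he => absurd ⟨e, he⟩ h⟩)
  have hd' : d ∈ N := hdN d rfl
  -- the dense sets
  obtain ⟨𝒟, h𝒟0, h𝒟⟩ := hGd β N Z hN (range D) (countable_range D) (by
    rintro _ ⟨j, rfl⟩ e he
    obtain ⟨O, hO, -, -, -, -, -, hR⟩ := hrule j [Sum.inl e]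
      (fun e' he' => by
        have : e' = e := by simpa using he'
        rw [this]
        exact he)
      (fun x => x.elim)
    obtain ⟨e', h1, h2, h3⟩ := hR e rfl
    exact ⟨e', hO e' h1, h2, h3⟩)
  obtain ⟨hg1, -, hg3, hg4⟩ := hHg β N Z 𝒟 hN h𝒟
  -- the generic condition
  obtain ⟨r, hr, -, hrd⟩ := hClaim β N Z 𝒟 hN h𝒟 (fun ρ _ => ⟨(hProp ρ).1, (hProp ρ).2.1⟩) bt α
    (lt_of_le_of_lt (bt_le α) hαβ) (bt_le α) hαβ.le (Cond.one I) (VB_one bt) (fun _ => d)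
    (measC_const d) (fun _ _ _ => rfl)
    (fun y _ => ⟨hd', Cond.mem_restr.2 fun i _ hi => absurd hi (not_lt.2 (bt_le i)), hg3 y⟩)
  -- decreasing sequences
  obtain ⟨c, hc1, hc2⟩ := hg4 α hαβ D (fun j => h𝒟0 (mem_range_self j)) (Z ∩ Iio α) (fun _ => d)
    (measC_const d) (fun _ _ _ => rfl) Subset.rfl
  refine ⟨r, c, hr, fun j => ⟨(hc1 j).1, fun y y' h => (hc1 j).2 y y' fun i hi => h i hi.2⟩, ?_⟩
  intro y hy
  obtain ⟨hyd, hH⟩ := hrd y hy
  have hG : Gen I N 𝒟 α y := hg1 α hαβ d hd' y hyd hH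
  refine ⟨hyd, fun j => ?_⟩
  obtain ⟨h1, h2, h3, h4, h5⟩ := hc2 y hG hd' hyd j
  exact ⟨hN.vb _ h1, h2, h3, h4, h5⟩

theorem le_of_le {c : ℕ → Pt I → Cond I} {y : Pt I} (h : ∀ j, c (j + 1) y ≤ c j y) {m n : ℕ}
    (hmn : m ≤ n) : c n y ≤ c m y := by
  induction hmn with
  | refl => exact le_refl _
  | step _ ih => exact le_trans (h _) ih

/-- Module INT. -/
theorem int (hProp : PropStmt I) (hHull : HullStmt.{0} I) (hGd : GdStmt I) (hHg : HgStmt I)
    (hClaim : ClaimStmt I) (hCst2 : Cst2Stmt I) : IntStmt I := by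
  intro β α hαβ hRp f hf hfd d hd C hC
  obtain ⟨r, c, hr, hc, hrc⟩ := core I hProp hHull hGd hHg hClaim β α hαβ d hd (Df I f)
    (fun j p hp => dense_Df I hProp hCst2 β hf hfd j p hp)
  let X : Pt I → Set ℕ := fun y => {n | ∀ y' ∈ (c (n + 1) y).body, n ∈ f y'}
  have hXm : Measurable X := by
    rw [measurable_nat_iff]
    intro n
    exact (hc (n + 1)).1.preimage {e : Cond I | ∀ y' ∈ e.body, n ∈ f y'}
  have hXd : Dep α X := by
    intro y y' h
    show {n | ∀ y'' ∈ (c (n + 1) y).body, n ∈ f y''} = {n | ∀ y'' ∈ (c (n + 1) y').body, n ∈ f y''}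
    ext n
    rw [mem_ofPred_eq, mem_ofPred_eq, (hc (n + 1)).2 y y' h]
  obtain ⟨q, hqr, hq, B, hBC, hB, i, hi⟩ := hRp r hr C hC X hXm hXd
  refine ⟨i, ⟨B, q, c, X⟩, ⟨hB, hq, hc, ⟨hXm, hXd⟩, ?_, ?_, hi⟩, ?_, hBC⟩
  · intro y hy j
    obtain ⟨-, h⟩ := hrc y (hqr hy)
    exact ⟨(h j).1, (h j).2.2.1⟩
  · intro y hy j y' hy' _ n hn
    obtain ⟨-, h⟩ := hrc y (hqr hy)
    have h1 : c j y ≤ c (n + 1) y := le_of_le I (fun j => (h j).2.2.2.2) hn
    exact Df_iff I (h (n + 1)).2.1 (Nat.lt_succ_self n) (h1 hy')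
  · intro y hy j
    obtain ⟨-, h⟩ := hrc y (hqr hy)
    exact (h j).2.2.2.1

/-- Module TRA. -/
theorem tra (hProp : PropStmt I) (hHull : HullStmt.{0} I) (hGd : GdStmt I) (hHg : HgStmt I)
    (hClaim : ClaimStmt I) (hCst2 : Cst2Stmt I) : TraStmt I := by
  intro β α α' hαβ hα f hf hfd d hd i 𝔡 hok hbel
  rcases eq_or_lt_of_le hα with rfl | hlt
  · exact ⟨𝔡, hok, hbel, rfl⟩
  obtain ⟨hinf, hvr, hme, hmX, hve, hrd, htyp⟩ := hok
  -- conditions at stage `α` which decide the interpretation up to `j`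
  let D : ℕ → Set (Cond I) := fun j => {p | p ∈ Df I 𝔡.X j ∧ ∃ e, ∀ y ∈ p.body, 𝔡.e j y = e}
  have hD : ∀ j p, VB α p → ∃ q, q ≤ p ∧ VB α q ∧ q ∈ D j := by
    intro j p hp
    obtain ⟨q1, h1, h2, h3⟩ := dense_Df I hProp hCst2 α hmX.1 hmX.2 j p hp
    obtain ⟨q2, h4, h5, e, he⟩ := (hCst2 α (hProp α).1 (hProp α).2.1).1 q1 h2 _ _ (hme j).1
      (hme j).2
    exact ⟨q2, le_trans h4 h1, h5, fun y hy y' hy' => h3 y (h4 hy) y' (h4 hy'), e, he⟩
  obtain ⟨r, c, hr, hc, hrc⟩ := core I hProp hHull hGd hHg hClaim α α' hlt 𝔡.r hvr D hD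
  classical
  let E : ℕ → Cond I → Cond I := fun j p =>
    if h : ∃ e, ∀ y ∈ p.body, 𝔡.e j y = e then h.choose else Cond.one I
  have hE : ∀ j p, p ∈ D j → ∀ y ∈ p.body, 𝔡.e j y = E j p := by
    intro j p hp y hy
    have h : ∃ e, ∀ y ∈ p.body, 𝔡.e j y = e := hp.2
    show 𝔡.e j y = if h : ∃ e, ∀ y ∈ p.body, 𝔡.e j y = e then h.choose else Cond.one I
    rw [dif_pos h]
    exact h.choose_spec y hy
  -- basic facts
  have hbase : ∀ y ∈ r.body, ∀ j, VB β (E j (c j y)) ∧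
      (c j y).restr α ≤ (E j (c j y)).restr α ∧ E j (c j y) ≤ d := by
    intro y hy j
    obtain ⟨-, h⟩ := hrc y hy
    obtain ⟨h1, h2, h3, h4, h5⟩ := h j
    obtain ⟨y0, hy0⟩ := (c j y).body_nonempty
    have h6 := hE j _ h2 y0 hy0
    refine ⟨?_, ?_, ?_⟩
    · rw [← h6]
      exact (hve y0 (h4 hy0) j).1
    · rw [h1.below.restr_eq]
      intro z hz
      rw [← hE j _ h2 z hz]
      exact (hve z (h4 hz) j).2
    · rw [← h6]
      exact hbel y0 (h4 hy0) j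
  let e' : ℕ → Pt I → Cond I := fun j y => Cond.glue (c j y) (E j (c j y)) α
  let X' : Pt I → Set ℕ := fun y => {n | ∀ y' ∈ (c (n + 1) y).body, n ∈ 𝔡.X y'}
  have hXm : Measurable X' := by
    rw [measurable_nat_iff]
    intro n
    exact (hc (n + 1)).1.preimage {e : Cond I | ∀ y' ∈ e.body, n ∈ 𝔡.X y'}
  have hXd : Dep α' X' := by
    intro y y' h
    show {n | ∀ y'' ∈ (c (n + 1) y).body, n ∈ 𝔡.X y''} =
      {n | ∀ y'' ∈ (c (n + 1) y').body, n ∈ 𝔡.X y''}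
    ext n
    rw [mem_ofPred_eq, mem_ofPred_eq, (hc (n + 1)).2 y y' h]
  refine ⟨⟨𝔡.C, r, e', X'⟩, ⟨hinf, hr, ?_, ⟨hXm, hXd⟩, ?_, ?_, ?_⟩, ?_, rfl⟩
  · intro j
    refine ⟨(hc j).1.comp (fun p => Cond.glue p (E j p) α), fun y y' h => ?_⟩
    show Cond.glue (c j y) (E j (c j y)) α = Cond.glue (c j y') (E j (c j y')) α
    rw [(hc j).2 y y' h]
  · intro y hy j
    obtain ⟨-, h⟩ := hrc y hy
    obtain ⟨h1, h2, h3, h4, h5⟩ := h j
    obtain ⟨h6, h7, h8⟩ := hbase y hy j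
    refine ⟨h1.glue h6 hαβ.le h7, ?_⟩
    show y ∈ ((Cond.glue (c j y) (E j (c j y)) α).restr α').body
    rw [Cond.glue_restr _ _ hα]
    exact h3
  · intro y hy j y' hy' _ n hn
    obtain ⟨-, h⟩ := hrc y hy
    obtain ⟨h1, h2, h3, h4, h5⟩ := h j
    obtain ⟨h6, h7, h8⟩ := hbase y hy j
    have hy1 : y' ∈ (c j y).body := Cond.glue_le_left h1.below hy'
    have hy2 : y' ∈ (E j (c j y)).body := Cond.glue_le_right h7 hy'
    have h9 : n ∈ f y' ↔ n ∈ 𝔡.X y' := by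
      refine hrd y' (h4 hy1) j y' ?_ (fun _ _ => rfl) n hn
      rw [hE j _ h2 y' hy1]
      exact hy2
    have h10 : c j y ≤ c (n + 1) y := le_of_le I (fun j => (h j).2.2.2.2) hn
    rw [h9]
    exact Df_iff I (h (n + 1)).2.1.1 (Nat.lt_succ_self n) (h10 hy1)
  · intro y hy n hn
    obtain ⟨-, h⟩ := hrc y hy
    obtain ⟨h1, h2, h3, h4, h5⟩ := h (n + 1)
    obtain ⟨y0, hy0⟩ := (c (n + 1) y).body_nonempty
    constructor
    · intro hX
      exact (htyp y0 (h4 hy0) n hn).1 (hX y0 hy0)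
    · intro hi y' hy'
      exact (htyp y' (h4 hy') n hn).2 hi
  · intro y hy j
    obtain ⟨h6, h7, h8⟩ := hbase y hy j
    exact le_trans (Cond.glue_le_right h7) h8

end Pool.Agent.MG.H4
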